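import Pool.Agent.W188.QS.Stm2
import Pool.Agent.H388LH.ZG

set_option autoImplicit false

/-!
# Project QS, part 2: bound at the edges
-/

open Complex

namespace Pool.Agent.W723.QS

open Pool.Agent.W188.QS

theorem norm_GG (T Δ σ t : ℝ) (hΔ : 0 < Δ) :
    ‖GG T Δ (⟨σ, t⟩ : ℂ)‖ = Real.exp (((σ - 1 / 2) ^ 2 - (t - T) ^ 2) / Δ ^ 2) := by
  unfold GG
  rw [Complex.norm_exp]
  congr 1
  have h1 : ((⟨σ, t⟩ : ℂ) - cp T) / (Δ : ℂ) = (⟨(σ - 1 / 2) / Δ, (t - T) / Δ⟩ : ℂ) := by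
    have hc : cp T = ⟨1 / 2, T⟩ := by
      unfold cp
      apply Complex.ext <;> simp
    rw [hc]
    apply Complex.ext
    · simp [Complex.div_re, Complex.normSq]
      field_simp
    · simp [Complex.div_im, Complex.normSq]
      field_simp
  rw [h1, pow_two, Complex.mul_re]
  simp only
  field_simp

theorem qs_edge (h : StLine) : StEdge := by
  obtain ⟨-, -, -, -, -, -, -, -, ⟨K, hK, hX⟩, -⟩ := h
  intro k A
  set m : ℝ := 7 * k + |A| + 2 with hm
  have hm0 : 0 ≤ m := by positivity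
  set B : ℝ := 4 * √m + 1 with hB
  have hsm : 0 ≤ √m := Real.sqrt_nonneg m
  have hB1 : 1 ≤ B := by rw [hB]; linarith
  have hB2 : 16 * m ≤ B ^ 2 := by
    have h1 : √m ^ 2 = m := Real.sq_sqrt hm0
    rw [hB]
    nlinarith
  refine ⟨B, max (max 100 (6400 * Real.exp K)) (Real.exp 13), hB1,
    (le_max_left _ _).trans (le_max_left _ _), ?_⟩
  intro T Δ hT hΔ hBT t ht σ hσ1 hσ2
  have hT100 : 100 ≤ T := ((le_max_left _ _).trans (le_max_left _ _)).trans hT
  have hTK : 6400 * Real.exp K ≤ T := ((le_max_right _ _).trans (le_max_left _ _)).trans hT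
  have hT13 : Real.exp 13 ≤ T := (le_max_right _ _).trans hT
  have hl : 13 ≤ Real.log T := by
    rw [Real.le_log_iff_exp_le (by linarith)]
    exact hT13
  have ht1 : T / 4 ≤ t ∧ t ≤ 2 * T ∧ T / 4 ≤ |t - T| := by
    rcases ht with ht | ht
    · rw [abs_le] at ht
      refine ⟨by linarith, by linarith, ?_⟩
      rw [abs_sub_comm]
      exact le_trans (by linarith) (le_abs_self _)
    · rw [abs_le] at ht
      refine ⟨by linarith, by linarith, ?_⟩
      exact le_trans (by linarith) (le_abs_self _)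
  obtain ⟨ht1, ht2, ht3⟩ := ht1
  have ht0 : 1 ≤ t := by linarith
  have hΔ0 : 0 < Δ := by linarith
  -- zeta
  have hz : ‖riemannZeta (⟨σ, t⟩ : ℂ)‖ ≤ 20 * T := by
    have h1 := Pool.Agent.H388LH.zeta_growth (s := (⟨σ, t⟩ : ℂ)) (by simp only; linarith)
      (by simpa using ht0)
    have h2 : ‖(⟨σ, t⟩ : ℂ)‖ ≤ |σ| + |t| := Complex.norm_le_abs_re_add_abs_im _
    rw [abs_of_nonneg (by linarith), abs_of_nonneg (by linarith)] at h2
    linarith
  -- XX
  have hx : ‖XX (⟨σ, t⟩ : ℂ)‖ ≤ Real.exp K * (2 * T) ^ 4 := by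
    have h1 := (hX (⟨σ, t⟩ : ℂ) hσ1 hσ2 ht0).2
    simp only at h1
    refine h1.trans (mul_le_mul_of_nonneg_left ?_ (Real.exp_pos K).le)
    calc t ^ (σ - 1 / 2) ≤ (2 * T) ^ (σ - 1 / 2) :=
          Real.rpow_le_rpow (by linarith) ht2 (by linarith)
      _ ≤ (2 * T) ^ (4 : ℝ) := Real.rpow_le_rpow_of_exponent_le (by linarith) (by linarith)
      _ = (2 * T) ^ 4 := by
          rw [show (4 : ℝ) = ((4 : ℕ) : ℝ) by norm_num, Real.rpow_natCast]
  -- FF
  have hF : ‖FF k (⟨σ, t⟩ : ℂ)‖ ≤ (T ^ 7) ^ k := by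
    unfold FF
    rw [norm_mul, norm_pow, norm_pow, pow_mul]
    calc (‖riemannZeta (⟨σ, t⟩ : ℂ)‖ ^ 2) ^ k * ‖XX (⟨σ, t⟩ : ℂ)‖ ^ k
        ≤ ((20 * T) ^ 2) ^ k * (Real.exp K * (2 * T) ^ 4) ^ k := by
          gcongr
      _ = (6400 * Real.exp K * T ^ 6) ^ k := by
          rw [← mul_pow]
          congr 1
          ring
      _ ≤ (T ^ 7) ^ k := by
          apply pow_le_pow_left₀ (by positivity)
          have h6 : 0 ≤ T ^ 6 := by positivity
          calc 6400 * Real.exp K * T ^ 6 ≤ T * T ^ 6 := mul_le_mul_of_nonneg_right hTK h6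
            _ = T ^ 7 := by ring
  have hF2 : (T ^ 7) ^ k = Real.exp (7 * k * Real.log T) := by
    have hT0 : 0 < T := by linarith
    rw [← pow_mul, show (7 * (k : ℝ) * Real.log T) = ((7 * k : ℕ) : ℝ) * Real.log T by push_cast; ring,
      Real.exp_nat_mul, Real.exp_log hT0]
  -- GG
  have hG : ‖GG T Δ (⟨σ, t⟩ : ℂ)‖ ≤ Real.exp (13 - m * Real.log T) := by
    rw [norm_GG T Δ σ t hΔ0]
    apply Real.exp_le_exp.2
    have hD2 : 1 ≤ Δ ^ 2 := by nlinarith
    have hs0 : 0 ≤ √(Real.log T) := Real.sqrt_nonneg _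
    have hss : √(Real.log T) ^ 2 = Real.log T := Real.sq_sqrt (by linarith)
    have h1 : B ^ 2 * Δ ^ 2 * Real.log T ≤ T ^ 2 := by
      have h2 : (B * Δ * √(Real.log T)) ^ 2 ≤ T ^ 2 :=
        pow_le_pow_left₀ (by positivity) hBT 2
      calc B ^ 2 * Δ ^ 2 * Real.log T = (B * Δ * √(Real.log T)) ^ 2 := by
            rw [mul_pow, mul_pow, hss]
        _ ≤ T ^ 2 := h2
    have h3 : (T / 4) ^ 2 ≤ (t - T) ^ 2 := by
      rw [← sq_abs (t - T)]
      exact pow_le_pow_left₀ (by linarith) ht3 2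
    have h4 : (σ - 1 / 2) ^ 2 ≤ 13 := by nlinarith
    have h5 : m * Δ ^ 2 * Real.log T ≤ (t - T) ^ 2 := by
      have h6 : 16 * m * (Δ ^ 2 * Real.log T) ≤ B ^ 2 * (Δ ^ 2 * Real.log T) :=
        mul_le_mul_of_nonneg_right hB2 (by positivity)
      nlinarith
    rw [div_le_iff₀ (by positivity)]
    have h7 : 13 ≤ 13 * Δ ^ 2 := by linarith
    nlinarith
  rw [norm_mul]
  have hT0 : 0 < T := by linarith
  calc ‖FF k (⟨σ, t⟩ : ℂ)‖ * ‖GG T Δ (⟨σ, t⟩ : ℂ)‖
      ≤ Real.exp (7 * k * Real.log T) * Real.exp (13 - m * Real.log T) := by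
        rw [← hF2]
        exact mul_le_mul hF hG (norm_nonneg _) (by positivity)
    _ = Real.exp (7 * k * Real.log T + (13 - m * Real.log T)) := (Real.exp_add _ _).symm
    _ ≤ Real.exp (Real.log T * (-A)) := by
        apply Real.exp_le_exp.2
        have h8 : A ≤ |A| := le_abs_self A
        have h9 : A * Real.log T ≤ |A| * Real.log T :=
          mul_le_mul_of_nonneg_right h8 (by linarith)
        rw [hm]
        nlinarith
    _ = T ^ (-A) := (Real.rpow_def_of_pos hT0 _).symm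

end Pool.Agent.W723.QS
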