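import Pool.Agent.W188.QS.Stm

set_option autoImplicit false

/-!
# Project QS: weights comparable with the logarithm
-/

open Filter Topology

namespace Pool.Agent.W723.QS

theorem tendsto_log_ratio : Tendsto (fun T : ℝ => Real.log (T / 2) / Real.log T) atTop (𝓝 1) := by
  have h1 : Tendsto (fun T : ℝ => 1 - Real.log 2 / Real.log T) atTop (𝓝 (1 - 0)) :=
    tendsto_const_nhds.sub (Tendsto.div_atTop tendsto_const_nhds Real.tendsto_log_atTop)
  rw [sub_zero] at h1
  refine h1.congr' ?_
  filter_upwards [eventually_gt_atTop 1] with T hT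
  have hl : 0 < Real.log T := Real.log_pos hT
  rw [Real.log_div (by linarith) (by norm_num)]
  field_simp

theorem tendsto_L_ratio (m : ℝ) :
    Tendsto (fun T : ℝ => (T / 2 * Real.log (T / 2) ^ m) / (T * Real.log T ^ m)) atTop
      (𝓝 (1 / 2)) := by
  have h1 : Tendsto (fun T : ℝ => 1 / 2 * (Real.log (T / 2) / Real.log T) ^ m) atTop
      (𝓝 (1 / 2 * (1 : ℝ) ^ m)) :=
    (tendsto_log_ratio.rpow_const (Or.inl one_ne_zero)).const_mul _
  rw [Real.one_rpow, mul_one] at h1
  refine h1.congr' ?_
  filter_upwards [eventually_gt_atTop 2] with T hT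
  have hl : 0 < Real.log T := Real.log_pos (by linarith)
  have hl2 : 0 < Real.log (T / 2) := Real.log_pos (by linarith)
  rw [Real.div_rpow hl2.le hl.le]
  have : (Real.log T ^ m) ≠ 0 := (Real.rpow_pos_of_pos hl m).ne'
  have hT0 : T ≠ 0 := by linarith
  field_simp

theorem tendsto_diff {a m : ℝ} {V : ℝ → ℝ}
    (h : Tendsto (fun T => V T / (T * Real.log T ^ m)) atTop (𝓝 a)) :
    Tendsto (fun T => (V T - V (T / 2)) / (T * Real.log T ^ m)) atTop (𝓝 (a / 2)) := by
  have h2 : Tendsto (fun T : ℝ => T / 2) atTop atTop :=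
    tendsto_id.atTop_div_const (by norm_num)
  have h3 := (h.comp h2).mul (tendsto_L_ratio m)
  have h4 := h.sub h3
  have e : a - a * (1 / 2) = a / 2 := by ring
  rw [e] at h4
  refine h4.congr' ?_
  filter_upwards [eventually_gt_atTop 2] with T hT
  have hl : 0 < Real.log T := Real.log_pos (by linarith)
  have hl2 : 0 < Real.log (T / 2) := Real.log_pos (by linarith)
  have h5 : (Real.log T ^ m) ≠ 0 := (Real.rpow_pos_of_pos hl m).ne'
  have h6 : (Real.log (T / 2) ^ m) ≠ 0 := (Real.rpow_pos_of_pos hl2 m).ne'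
  have hT0 : T ≠ 0 := by linarith
  simp only [Function.comp_apply]
  field_simp

theorem qs_wt (h : Pool.Agent.W188.QS.StDyad) : Pool.Agent.W188.QS.StWt := by
  intro a m κ T₀ hm hκ V D hV hD hV0 hD0 hVD
  have hlog : ∀ᶠ T : ℝ in atTop, 4 < Real.log T := Real.tendsto_log_atTop.eventually_gt_atTop 4
  have hkey : ∀ᶠ T : ℝ in atTop,
      (Real.log T - 4) / Real.log T * ((V T - V (T / 2)) / (T * Real.log T ^ m)) ≤
        (κ * D T - κ * D (T / 2)) / (T * Real.log T ^ (m + 1)) ∧
      (κ * D T - κ * D (T / 2)) / (T * Real.log T ^ (m + 1)) ≤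
        (V T - V (T / 2)) / (T * Real.log T ^ m) := by
    filter_upwards [hlog, eventually_ge_atTop T₀, eventually_gt_atTop 2] with T hT hT0 hT2
    have hl : 0 < Real.log T := by linarith
    have h5 : 0 < Real.log T ^ m := Real.rpow_pos_of_pos hl m
    have h6 : Real.log T ^ (m + 1) = Real.log T ^ m * Real.log T := by
      rw [Real.rpow_add hl, Real.rpow_one]
    have hTp : 0 < T := by linarith
    obtain ⟨h7, h8⟩ := hVD T hT0
    have hpos : 0 < T * Real.log T ^ (m + 1) := by rw [h6]; positivity
    have e1 : (V T - V (T / 2)) / (T * Real.log T ^ m) =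
        (Real.log T * (V T - V (T / 2))) / (T * Real.log T ^ (m + 1)) := by
      rw [h6]
      field_simp
    have e2 : (Real.log T - 4) / Real.log T * ((V T - V (T / 2)) / (T * Real.log T ^ m)) =
        ((Real.log T - 4) * (V T - V (T / 2))) / (T * Real.log T ^ (m + 1)) := by
      rw [h6]
      field_simp
    rw [e2, e1]
    constructor
    · apply div_le_div_of_nonneg_right _ hpos.le
      linarith
    · apply div_le_div_of_nonneg_right _ hpos.le
      linarith
  have hrat : Tendsto (fun T : ℝ => (Real.log T - 4) / Real.log T) atTop (𝓝 1) := by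
    have h1 : Tendsto (fun T : ℝ => 1 - 4 / Real.log T) atTop (𝓝 (1 - 0)) :=
      tendsto_const_nhds.sub (Tendsto.div_atTop tendsto_const_nhds Real.tendsto_log_atTop)
    rw [sub_zero] at h1
    refine h1.congr' ?_
    filter_upwards [hlog] with T hT
    have hl : Real.log T ≠ 0 := by linarith
    field_simp
  constructor
  · intro hVa
    have hu := tendsto_diff hVa
    have hl1 := hrat.mul hu
    rw [one_mul] at hl1
    have hw : Tendsto (fun T => (κ * D T - κ * D (T / 2)) / (T * Real.log T ^ (m + 1))) atTop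
        (𝓝 (a / 2)) :=
      tendsto_of_tendsto_of_tendsto_of_le_of_le' hl1 hu (hkey.mono fun T h => h.1)
        (hkey.mono fun T h => h.2)
    exact h a (m + 1) (by linarith) (fun x => κ * D x) (hD.const_mul hκ.le)
      (fun x => mul_nonneg hκ.le (hD0 x)) hw
  · intro hDa
    have hw := tendsto_diff (V := fun x => κ * D x) hDa
    have hrat' : Tendsto (fun T : ℝ => ((Real.log T - 4) / Real.log T)⁻¹) atTop (𝓝 1) := by
      have := hrat.inv₀ one_ne_zero
      rwa [inv_one] at this
    have hu1 := hrat'.mul hw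
    rw [one_mul] at hu1
    have hu : Tendsto (fun T => (V T - V (T / 2)) / (T * Real.log T ^ m)) atTop (𝓝 (a / 2)) := by
      refine tendsto_of_tendsto_of_tendsto_of_le_of_le' hw hu1 (hkey.mono fun T h => h.2) ?_
      filter_upwards [hkey, hlog] with T hT hT4
      have hr : 0 < (Real.log T - 4) / Real.log T := by
        apply div_pos <;> linarith
      have := hT.1
      rw [← div_eq_inv_mul, le_div_iff₀ hr, mul_comm]
      exact this
    exact h a m hm V hV hV0 hu

end Pool.Agent.W723.QS
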